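import Pool.Agent.helper12.DD.Spec2
import Pool.Agent.helper64.DW.CLA

/-!
# dw:CLB: Clifford theory for the index `q`, characters which are not invariant
-/

set_option autoImplicit false

open Pool.Agent.helper49.Blk

namespace Pool.Agent.DD

section

variable {A B : Type} [Group A] [Group B]

/-- The action of `B` on `A` by conjugation. -/
noncomputable def CLB_c (j : A →* B) (hj : Function.Injective j) (hn : j.range.Normal) :
    B →* MulAut A :=
  haveI := hn
  (MulAut.congr (MonoidHom.ofInjective hj).symm).toMonoidHom.comp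
    (MulAut.conjNormal (H := j.range))

theorem CLB_c_apply (j : A →* B) (hj : Function.Injective j) (hn : j.range.Normal) (b : B) (x : A) :
    j (CLB_c j hj hn b x) = b * j x * b⁻¹ := by
  haveI := hn
  have h1 : ∀ z : j.range, j ((MonoidHom.ofInjective hj).symm z) = z := by
    intro z
    have h2 := congrArg Subtype.val ((MonoidHom.ofInjective hj).apply_symm_apply z)
    rw [MonoidHom.ofInjective_apply] at h2
    exact h2
  have h3 : CLB_c j hj hn b x = (MonoidHom.ofInjective hj).symm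
      (MulAut.conjNormal b (MonoidHom.ofInjective hj x)) := rfl
  rw [h3, h1, MulAut.conjNormal_apply, MonoidHom.ofInjective_apply]

theorem CLB_c_iff (j : A →* B) (hj : Function.Injective j) (hn : j.range.Normal) (b : B)
    (x y : A) : j y = b * j x * b⁻¹ ↔ y = CLB_c j hj hn b x := by
  rw [← CLB_c_apply j hj hn b x]
  exact hj.eq_iff

end

theorem CLB (hLAM : LAM_stmt) (hCLE : CLE_stmt) (hCLS : CLS_stmt) : CLB_stmt := by
  classical
  intro A B _ _ _ _ j hj hn q hq hcard ψ hψ hivt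
  have := Fintype.ofFinite A
  have := Fintype.ofFinite B
  have hcA : Nat.card j.range = Nat.card A :=
    (Nat.card_congr (MonoidHom.ofInjective hj).toEquiv).symm
  obtain ⟨lam, hlam, hlamq⟩ := hLAM B j.range hn q hq (by rw [hcA]; exact hcard)
  obtain ⟨⟨m, hm, hm'⟩, hψc⟩ := (IRF A).2 ψ hψ
  have hAne : (Nat.card A : ℂ) ≠ 0 := by exact_mod_cast Nat.card_pos.ne'
  have hBne : (Nat.card B : ℂ) ≠ 0 := by exact_mod_cast Nat.card_pos.ne'
  have hqne : (q : ℂ) ≠ 0 := by exact_mod_cast hq.pos.ne'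
  have hmne : (m : ℂ) ≠ 0 := by exact_mod_cast hm.ne'
  have hcardC : (Nat.card B : ℂ) = q * Nat.card A := by
    rw [hcard]
    push_cast
    rfl
  set c := CLB_c j hj hn with hc
  have hcj : ∀ b x, j (c b x) = b * j x * b⁻¹ := CLB_c_apply j hj hn
  have hciff : ∀ b x y, j y = b * j x * b⁻¹ ↔ y = c b x := CLB_c_iff j hj hn
  have hcm : ∀ b b' x, c (b * b') x = c b (c b' x) := by
    intro b b' x
    rw [map_mul]
    rfl
  have hc1 : ∀ x, c 1 x = x := by
    intro x
    rw [map_one]
    rfl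
  have hψI : ∀ b, (fun x => ψ (c b x)) ∈ Irr A := fun b => (TRI A A (c b) ψ).1 hψ
  -- the action on functions
  letI act : MulAction B (A → ℂ) :=
    { smul := fun b f => fun x => f (c b⁻¹ x)
      one_smul := by
        intro f
        funext x
        show f (c 1⁻¹ x) = f x
        rw [inv_one, hc1]
      mul_smul := by
        intro b b' f
        funext x
        show f (c (b * b')⁻¹ x) = f (c b'⁻¹ (c b⁻¹ x))
        rw [mul_inv_rev, hcm] }
  have hact : ∀ (b : B) (f : A → ℂ) (x : A), (b • f) x = f (c b⁻¹ x) := fun _ _ _ => rfl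
  -- the stabiliser has index `q`
  have hstab : (MulAction.stabilizer B ψ).index = q := by
    have h1 : j.range ≤ MulAction.stabilizer B ψ := by
      rintro _ ⟨a, rfl⟩
      rw [MulAction.mem_stabilizer_iff]
      funext x
      rw [hact]
      have h2 : c (j a)⁻¹ x = a⁻¹ * x * a⁻¹⁻¹ := by
        apply hj
        rw [hcj]
        simp
      rw [h2]
      exact hψc x a⁻¹
    have h2 := Subgroup.index_dvd_of_le h1
    have h3 : j.range.index = q := by
      have h4 := j.range.card_mul_index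
      rw [hcA, hcard, mul_comm] at h4
      exact Nat.eq_of_mul_eq_mul_right Nat.card_pos h4
    rw [h3] at h2
    rcases (Nat.dvd_prime hq).1 h2 with h | h
    · exfalso
      apply hivt
      intro b x y hy
      have h5 : MulAction.stabilizer B ψ = ⊤ := Subgroup.index_eq_one.1 h
      have h6 : b⁻¹ ∈ MulAction.stabilizer B ψ := by
        rw [h5]
        trivial
      rw [MulAction.mem_stabilizer_iff] at h6
      have h7 := congrFun h6 x
      rw [hact, inv_inv] at h7
      rw [(hciff b x y).1 hy]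
      exact h7
    · exact h
  have hcardS : q * Nat.card (MulAction.stabilizer B ψ) = Nat.card B := by
    rw [← hstab, mul_comm]
    exact Subgroup.card_mul_index _
  -- the function `G`
  set G : A → ℂ := fun x => ∑ b : B, ψ (c b x) with hG
  have hpropG : ∀ φ ∈ Irr B, Ovr j φ ψ → ∀ x, φ (j x) * (m * Nat.card B) = φ 1 * G x := by
    intro φ hφ ho x
    have hφc := ((IRF B).2 φ hφ).2
    set Z : Set A := {y | ∃ b, j y = b * j x * b⁻¹} with hZ
    have hZf : Z.Finite := Set.toFinite _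
    have hZc : ∀ b, ∀ y ∈ Z, c b y ∈ Z := by
      rintro b y ⟨b', hb'⟩
      refine ⟨b * b', ?_⟩
      rw [hcj, hb']
      group
    have h1 := hCLS A B j hj hn φ hφ ψ hψ ho Z (by
      rintro b y z hz ⟨c', hc'⟩
      exact ⟨b * c', by rw [hz, hc']; group⟩)
    have h2 : ∑ᶠ y ∈ Z, φ (j y) = (Z.ncard : ℂ) * φ (j x) := by
      have e : ∀ y ∈ Z, φ (j y) = φ (j x) := by
        rintro y ⟨b, hb⟩
        rw [hb]
        exact hφc (j x) b
      rw [finsum_mem_congr rfl e, finsum_mem_eq_finite_toFinset_sum _ hZf,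
        Finset.sum_const, nsmul_eq_mul, Set.ncard_eq_toFinset_card _ hZf]
    have h3 : ∀ b, ∑ y ∈ hZf.toFinset, ψ (c b y) = ∑ y ∈ hZf.toFinset, ψ y := by
      intro b
      refine Finset.sum_bij (fun y _ => c b y) ?_ ?_ ?_ ?_
      · intro y hy
        rw [Set.Finite.mem_toFinset] at hy ⊢
        exact hZc b y hy
      · intro y _ z _ h
        exact (c b).injective h
      · intro y hy
        rw [Set.Finite.mem_toFinset] at hy
        refine ⟨c b⁻¹ y, ?_, ?_⟩
        · rw [Set.Finite.mem_toFinset]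
          exact hZc b⁻¹ y hy
        · rw [← hcm, mul_inv_cancel, hc1]
      · intro y _
        rfl
    have h4 : ∀ y ∈ Z, G y = G x := by
      rintro y ⟨b', hb'⟩
      rw [(hciff b' x y).1 hb', hG]
      simp only
      refine Fintype.sum_equiv (Equiv.mulRight b') _ _ ?_
      intro b
      rw [Equiv.coe_mulRight, hcm]
    have h5 : (Z.ncard : ℂ) * G x = (Nat.card B : ℂ) * ∑ᶠ y ∈ Z, ψ y := by
      rw [finsum_mem_eq_finite_toFinset_sum _ hZf, Set.ncard_eq_toFinset_card _ hZf]
      calc ((hZf.toFinset.card : ℕ) : ℂ) * G x = ∑ y ∈ hZf.toFinset, G y := by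
            rw [Finset.sum_congr rfl (fun y hy => h4 y ((Set.Finite.mem_toFinset hZf).1 hy)),
              Finset.sum_const, nsmul_eq_mul]
        _ = ∑ b : B, ∑ y ∈ hZf.toFinset, ψ (c b y) := by
            rw [hG]
            exact Finset.sum_comm
        _ = ∑ b : B, ∑ y ∈ hZf.toFinset, ψ y := Finset.sum_congr rfl fun b _ => h3 b
        _ = _ := by
            rw [Finset.sum_const, nsmul_eq_mul, Finset.card_univ, Nat.card_eq_fintype_card]
    have h6 : (Z.ncard : ℂ) ≠ 0 := by
      have h7 : Z.ncard ≠ 0 := ((Set.ncard_pos hZf).2 ⟨x, ⟨1, by simp⟩⟩).ne'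
      exact_mod_cast h7
    rw [h2, hm'] at h1
    apply mul_left_cancel₀ h6
    calc (Z.ncard : ℂ) * (φ (j x) * (m * Nat.card B))
        = ((Z.ncard : ℂ) * φ (j x) * m) * Nat.card B := by ring
      _ = (φ 1 * ∑ᶠ y ∈ Z, ψ y) * Nat.card B := by rw [h1]
      _ = φ 1 * ((Nat.card B : ℂ) * ∑ᶠ y ∈ Z, ψ y) := by ring
      _ = φ 1 * ((Z.ncard : ℂ) * G x) := by rw [h5]
      _ = _ := by ring
  -- scalar products with `G`
  have hGin : ∀ ψ' ∈ Irr A, ∑ x, G x * ψ' x⁻¹ =
      (Nat.card A : ℂ) * ((Finset.univ.filter (fun b : B => (fun x => ψ (c b x)) = ψ')).card : ℂ) := by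
    intro ψ' hψ'
    have e1 : ∑ x, G x * ψ' x⁻¹ = ∑ b : B, ∑ x, ψ (c b x) * ψ' x⁻¹ := by
      rw [hG, Finset.sum_comm]
      exact Finset.sum_congr rfl fun x _ => by rw [Finset.sum_mul]
    have e2 : ∀ b : B, ∑ x, ψ (c b x) * ψ' x⁻¹ =
        if (fun x => ψ (c b x)) = ψ' then (Nat.card A : ℂ) else 0 := by
      intro b
      have h1 := CLA_orth (fun x => ψ (c b x)) ψ' (hψI b) hψ'
      split_ifs with h
      · exact h1.2 h
      · exact h1.1 h
    rw [e1, Finset.sum_congr rfl (fun b _ => e2 b), ← Finset.sum_filter, Finset.sum_const,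
      nsmul_eq_mul, mul_comm]
  have hfil : ∀ b' : B, (Finset.univ.filter
      (fun b : B => (fun x => ψ (c b x)) = fun x => ψ (c b' x))).card =
      Nat.card (MulAction.stabilizer B ψ) := by
    intro b'
    rw [Nat.card_eq_fintype_card, ← Fintype.card_coe]
    refine Fintype.card_congr ?_
    refine
      { toFun := fun b => ⟨(b.1 * b'⁻¹)⁻¹, ?_⟩
        invFun := fun s => ⟨s.1⁻¹ * b', ?_⟩
        left_inv := ?_
        right_inv := ?_ }
    · have hb := b.2
      rw [Finset.mem_filter] at hb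
      rw [MulAction.mem_stabilizer_iff]
      funext x
      rw [hact, inv_inv, hcm]
      have h1 := congrFun hb.2 (c b'⁻¹ x)
      rw [h1, ← hcm, mul_inv_cancel, hc1]
    · rw [Finset.mem_filter]
      refine ⟨Finset.mem_univ _, ?_⟩
      funext x
      have hs := s.2
      rw [MulAction.mem_stabilizer_iff] at hs
      have h1 := congrFun hs (c b' x)
      rw [hact] at h1
      rw [hcm]
      exact h1
    · intro b
      apply Subtype.ext
      simp
    · intro s
      apply Subtype.ext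
      simp
  have hSpos : (Nat.card (MulAction.stabilizer B ψ) : ℂ) ≠ 0 := by
    exact_mod_cast Nat.card_pos.ne'
  set s : ℕ := Nat.card (MulAction.stabilizer B ψ) with hs
  have hsB : (q : ℂ) * s = Nat.card B := by exact_mod_cast hcardS
  have hspos : 0 < s := Nat.card_pos
  have hlz : ∀ b, ((lam b : ℂˣ) : ℂ) ^ q = 1 := by
    intro b
    rw [← Units.val_pow_eq_pow_val, hlamq b, Units.val_one]
  have hgeo : ∀ b, ∑ k ∈ Finset.range q, ((lam b : ℂˣ) : ℂ) ^ k =
      if b ∈ j.range then (q : ℂ) else 0 := by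
    intro b
    split_ifs with hb
    · rw [(hlam b).2 hb]
      simp
    · refine CLA_geom _ (hlz b) ?_
      intro h
      exact hb ((hlam b).1 (Units.ext h))
  have hpow : ∀ φ ∈ Irr B, ∀ k : ℕ, (fun b => ((lam b : ℂˣ) : ℂ) ^ k * φ b) ∈ Irr B := by
    intro φ hφ k
    have h1 := CLA_mul_mem (lam ^ k) φ hφ
    have e : (fun b => ((((lam ^ k) b : ℂˣ)) : ℂ) * φ b) =
        fun b => ((lam b : ℂˣ) : ℂ) ^ k * φ b := by
      funext b
      rw [MonoidHom.pow_apply, Units.val_pow_eq_pow_val]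
    rw [← e]
    exact h1
  have hdbl : ∀ φ φ' : B → ℂ, ∑ k ∈ Finset.range q, ∑ b, (((lam b : ℂˣ) : ℂ) ^ k * φ b) * φ' b⁻¹ =
      q * ∑ x : A, φ (j x) * φ' (j x)⁻¹ := by
    intro φ φ'
    rw [Finset.sum_comm]
    have e1 : ∀ b ∈ (Finset.univ : Finset B),
        ∑ k ∈ Finset.range q, (((lam b : ℂˣ) : ℂ) ^ k * φ b) * φ' b⁻¹ =
        (q : ℂ) * (if b ∈ j.range then φ b * φ' b⁻¹ else 0) := by
      intro b _
      have e2 : ∑ k ∈ Finset.range q, (((lam b : ℂˣ) : ℂ) ^ k * φ b) * φ' b⁻¹ =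
          (∑ k ∈ Finset.range q, ((lam b : ℂˣ) : ℂ) ^ k) * (φ b * φ' b⁻¹) := by
        rw [Finset.sum_mul]
        exact Finset.sum_congr rfl fun k _ => by ring
      rw [e2, hgeo b]
      split_ifs
      · rfl
      · simp
    rw [Finset.sum_congr rfl e1, ← Finset.mul_sum, CLA_sum j hj (fun b => φ b * φ' b⁻¹)]
  -- all twists of `φ` are equal to `φ`
  have hall : ∀ φ ∈ Irr B, Ovr j φ ψ → ∀ l, ∀ b, ((lam b : ℂˣ) : ℂ) ^ l * φ b = φ b := by
    intro φ hφ ho
    have hφc := ((IRF B).2 φ hφ).2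
    by_contra hcon
    push Not at hcon
    obtain ⟨l, b0, hlb⟩ := hcon
    have hnostab : ∀ k, 0 < k → k < q → ¬ ∀ b, ((lam b : ℂˣ) : ℂ) ^ k * φ b = φ b := by
      intro k hk hkq hst
      have hcop : Nat.Coprime k q := by
        rw [Nat.coprime_comm]
        exact (Nat.Prime.coprime_iff_not_dvd hq).2 (fun h => absurd (Nat.le_of_dvd hk h)
          (not_le.2 hkq))
      obtain ⟨s, hs⟩ : ∃ s, k * s ≡ l [MOD q] := by
        obtain ⟨s, hs⟩ := Nat.exists_mul_mod_eq_one_of_coprime hcop hq.one_lt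
        refine ⟨s * l, ?_⟩
        have h1 : k * s ≡ 1 [MOD q] := by
          have h0 : 1 % q = 1 := Nat.mod_eq_of_lt hq.one_lt
          unfold Nat.ModEq
          rw [h0]
          first
            | exact hs
            | exact hs.2
        have h2 := h1.mul_right l
        rw [one_mul, mul_assoc] at h2
        exact h2
      have h3 := CLA_stab lam φ k hst s b0
      have h4 : ((lam b0 : ℂˣ) : ℂ) ^ (k * s) = ((lam b0 : ℂˣ) : ℂ) ^ l := by
        rw [← Nat.div_add_mod (k * s) q, ← Nat.div_add_mod l q, pow_add, pow_add, pow_mul, pow_mul,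
          hlz b0, one_pow, one_pow, hs]
      rw [h4] at h3
      exact hlb h3
    have hin : ∀ k, ∑ b, (((lam b : ℂˣ) : ℂ) ^ k * φ b) * φ b⁻¹ =
        if (∀ b, ((lam b : ℂˣ) : ℂ) ^ k * φ b = φ b) then (Nat.card B : ℂ) else 0 := by
      intro k
      have h1 := CLA_orth (fun b => ((lam b : ℂˣ) : ℂ) ^ k * φ b) φ (hpow φ hφ k) hφ
      split_ifs with h
      · exact h1.2 (funext h)
      · exact h1.1 (fun h' => h (fun b => congrFun h' b))
    have hN : ((Finset.range q).filter
        (fun k => ∀ b, ((lam b : ℂˣ) : ℂ) ^ k * φ b = φ b)).card = 1 := by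
      rw [Finset.card_eq_one]
      refine ⟨0, ?_⟩
      ext k
      simp only [Finset.mem_filter, Finset.mem_range, Finset.mem_singleton]
      constructor
      · rintro ⟨hk, hst⟩
        by_contra hne
        exact hnostab k (Nat.pos_of_ne_zero hne) hk hst
      · rintro rfl
        exact ⟨hq.pos, fun b => by simp⟩
    have hd := hdbl φ φ
    rw [Finset.sum_congr rfl (fun k _ => hin k), ← Finset.sum_filter, Finset.sum_const,
      nsmul_eq_mul, hN, Nat.cast_one, one_mul, hcardC] at hd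
    have hnorm : ∑ x : A, φ (j x) * φ (j x)⁻¹ = (Nat.card A : ℂ) :=
      (mul_left_cancel₀ hqne hd).symm
    -- the restriction is irreducible
    have hres : (fun x => φ (j x)) ∈ Irr A := by
      obtain ⟨V, _, _, _, ρ, hρ, rfl⟩ := hφ
      refine ⟨V, _, _, inferInstance, ρ.comp j, ?_, rfl⟩
      refine NRM A V _ ?_
      rw [← hnorm]
      refine Finset.sum_congr rfl fun x _ => ?_
      rw [← map_inv]
      rfl
    have heq : (fun x => φ (j x)) = ψ := by
      by_contra hne
      apply ho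
      rw [finsum_eq_sum_of_fintype]
      exact (CLA_orth _ ψ hres hψ).1 hne
    apply hivt
    intro b x y hy
    rw [← heq]
    show φ (j y) = φ (j x)
    rw [hy]
    exact hφc (j x) b
  have hvan : ∀ φ ∈ Irr B, Ovr j φ ψ → ∀ b, b ∉ j.range → φ b = 0 := by
    intro φ hφ ho b hb
    have h1 := hall φ hφ ho 1 b
    rw [pow_one] at h1
    by_contra hne
    apply hb
    apply (hlam b).1
    apply Units.ext
    rw [Units.val_one]
    exact mul_right_cancel₀ hne (by rw [h1, one_mul])
  -- the degree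
  have hdeg : ∀ φ ∈ Irr B, Ovr j φ ψ → φ 1 = q * ψ 1 := by
    intro φ hφ ho
    obtain ⟨⟨n, hn0, hn'⟩, hφc⟩ := (IRF B).2 φ hφ
    have hp := hpropG φ hφ ho
    have h1 : ∀ k ∈ Finset.range q, ∑ b, (((lam b : ℂˣ) : ℂ) ^ k * φ b) * φ b⁻¹ =
        (Nat.card B : ℂ) := by
      intro k _
      rw [← (CLA_orth φ φ hφ hφ).2 rfl]
      refine Finset.sum_congr rfl fun b _ => ?_
      rw [hall φ hφ ho k b]
    have hd := hdbl φ φ
    rw [Finset.sum_congr rfl h1, Finset.sum_const, Finset.card_range, nsmul_eq_mul] at hd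
    have hnorm : ∑ x : A, φ (j x) * φ (j x)⁻¹ = (Nat.card B : ℂ) :=
      (mul_left_cancel₀ hqne hd).symm
    -- norm of `G`
    have hGG : ∑ x, G x * G x⁻¹ = (Nat.card A : ℂ) * (Nat.card B * s) := by
      have e1 : ∑ x, G x * G x⁻¹ = ∑ b : B, ∑ x, G x * ψ (c b x⁻¹) := by
        rw [Finset.sum_comm]
        refine Finset.sum_congr rfl fun x _ => ?_
        rw [← Finset.mul_sum]
      rw [e1]
      have e2 : ∀ b ∈ (Finset.univ : Finset B), ∑ x, G x * ψ (c b x⁻¹) =
          (Nat.card A : ℂ) * s := by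
        intro b _
        have h2 := hGin (fun x => ψ (c b x)) (hψI b)
        rw [hfil b] at h2
        exact h2
      rw [Finset.sum_congr rfl e2, Finset.sum_const, nsmul_eq_mul, Finset.card_univ,
        ← Nat.card_eq_fintype_card]
      ring
    have h2 : (∑ x : A, φ (j x) * φ (j x)⁻¹) * (m * Nat.card B) ^ 2 =
        (n : ℂ) ^ 2 * ∑ x, G x * G x⁻¹ := by
      rw [Finset.sum_mul, Finset.mul_sum]
      refine Finset.sum_congr rfl fun x _ => ?_
      have h3 := hp x
      have h4 := hp x⁻¹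
      rw [map_inv] at h4
      rw [hn'] at h3 h4
      calc φ (j x) * φ (j x)⁻¹ * (m * Nat.card B) ^ 2
          = (φ (j x) * (m * Nat.card B)) * (φ (j x)⁻¹ * (m * Nat.card B)) := by ring
        _ = (n * G x) * (n * G x⁻¹) := by rw [h3, h4]
        _ = _ := by ring
    rw [hnorm, hGG] at h2
    -- `|B| (m |B|)² = n² |A| |B| s`, `|B| = q s = q |A|`
    have hsA : (s : ℂ) = Nat.card A := by
      apply mul_left_cancel₀ hqne
      rw [hsB, hcardC]
    rw [← hsA, ← hsB] at h2
    have hsne : (s : ℂ) ≠ 0 := by exact_mod_cast hspos.ne'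
    have h3 : (n : ℂ) ^ 2 = (q * m : ℂ) ^ 2 := by
      have h4 : (q : ℂ) * s ^ 3 ≠ 0 := mul_ne_zero hqne (pow_ne_zero 3 hsne)
      apply mul_left_cancel₀ h4
      linear_combination -h2
    have h5 : n ^ 2 = (q * m) ^ 2 := by exact_mod_cast h3
    have h6 : n = q * m := Nat.pow_left_injective (n := 2) (by norm_num) h5
    rw [hn', hm', h6]
    push_cast
    rfl
  have hval : ∀ φ ∈ Irr B, Ovr j φ ψ → ∀ x, φ (j x) * s = G x := by
    intro φ hφ ho x
    have h1 := hpropG φ hφ ho x
    rw [hdeg φ hφ ho, hm', ← hsB] at h1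
    have h2 : (q : ℂ) * m ≠ 0 := mul_ne_zero hqne hmne
    apply mul_left_cancel₀ h2
    linear_combination h1
  have hund : ∀ φ ∈ Irr B, Ovr j φ ψ → ∀ ψ' ∈ Irr A,
      (Ovr j φ ψ' ↔ ∃ b : B, (fun x => ψ (c b x)) = ψ') := by
    intro φ hφ ho ψ' hψ'
    have h1 : (∑ x : A, φ (j x) * ψ' x⁻¹) * s = ∑ x, G x * ψ' x⁻¹ := by
      rw [Finset.sum_mul]
      refine Finset.sum_congr rfl fun x _ => ?_
      rw [← hval φ hφ ho x]
      ring
    unfold Ovr
    rw [finsum_eq_sum_of_fintype]
    constructor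
    · intro h
      have h2 : ∑ x, G x * ψ' x⁻¹ ≠ 0 := by
        rw [← h1]
        exact mul_ne_zero h hSpos
      rw [hGin ψ' hψ'] at h2
      have h3 : (Finset.univ.filter (fun b : B => (fun x => ψ (c b x)) = ψ')).card ≠ 0 := by
        intro h4
        apply h2
        rw [h4]
        simp
      obtain ⟨b, hb⟩ := Finset.card_pos.1 (Nat.pos_of_ne_zero h3)
      exact ⟨b, (Finset.mem_filter.1 hb).2⟩
    · rintro ⟨b, rfl⟩ h
      rw [h, zero_mul] at h1
      rw [hGin _ (hψI b), hfil b] at h1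
      exact mul_ne_zero hAne hSpos h1.symm
  obtain ⟨φ0, hφ0, ho0⟩ := hCLE A B j hj ψ hψ
  refine ⟨?_, ?_⟩
  · rw [Set.ncard_eq_one]
    refine ⟨φ0, ?_⟩
    ext φ
    constructor
    · rintro ⟨hφ, ho⟩
      rw [Set.mem_singleton_iff]
      funext b
      by_cases hb : b ∈ j.range
      · obtain ⟨x, rfl⟩ := hb
        apply mul_right_cancel₀ hSpos
        rw [hval φ hφ ho x, hval φ0 hφ0 ho0 x]
      · rw [hvan φ hφ ho b hb, hvan φ0 hφ0 ho0 b hb]
    · rintro rfl
      exact ⟨hφ0, ho0⟩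
  · intro φ hφ ho
    refine ⟨hdeg φ hφ ho, hvan φ hφ ho, ?_, ?_⟩
    · have h1 : {ψ' | ψ' ∈ Irr A ∧ Ovr j φ ψ'} = MulAction.orbit B ψ := by
        ext ψ'
        constructor
        · rintro ⟨hψ', ho'⟩
          obtain ⟨b, hb⟩ := (hund φ hφ ho ψ' hψ').1 ho'
          refine ⟨b⁻¹, ?_⟩
          show b⁻¹ • ψ = ψ'
          rw [← hb]
          funext x
          rw [hact, inv_inv]
        · rintro ⟨b, hb⟩
          have hb' : (fun x => ψ (c b⁻¹ x)) = ψ' := hb
          have hI : ψ' ∈ Irr A := by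
            rw [← hb']
            exact hψI b⁻¹
          exact ⟨hI, (hund φ hφ ho ψ' hI).2 ⟨b⁻¹, hb'⟩⟩
      rw [h1, ← MulAction.index_stabilizer, hstab]
    · intro ψ' hψ' ho'
      obtain ⟨b, hb⟩ := (hund φ hφ ho ψ' hψ').1 ho'
      refine ⟨?_, b, ?_⟩
      · intro hi
        apply hivt
        intro b' x y hy
        have h1 : ∀ z, ψ z = ψ' (c b⁻¹ z) := by
          intro z
          rw [← hb]
          show ψ z = ψ (c b (c b⁻¹ z))
          rw [← hcm, mul_inv_cancel, hc1]
        rw [h1 y, h1 x]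
        refine hi (b⁻¹ * b' * b) _ _ ?_
        rw [hciff, ← hcm, (hciff b' x y).1 hy, ← hcm]
        congr 2
        group
      · intro x y hy
        rw [← hb, (hciff b x y).1 hy]

end Pool.Agent.DD
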